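import Pool.Agent.H83.KLU.Refl

/-!
# Linkings with the same last step have the same length (MP_a7460d_ag)

The mirror image of the statement for the first step, by reflection.
-/

set_option autoImplicit false

open Pool.Agent.H30.KL Pool.Agent.H44.KL Pool.Agent.H86.KL

namespace Pool.Agent.H83.KLU

variable {n : ℕ} {u v : Equiv.Perm (Fin n)} {i j i' j' : Fin n} {C R : Finset (Fin n)}
  {s : Fin n → Fin n}

theorem image_insert_erase (u : Equiv.Perm (Fin n)) (S : Finset (Fin n)) (x r : Fin n) :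
    insert (ph u x) ((S.image (ph u)).erase (ph u r)) = (insert x (S.erase r)).image (ph u) := by
  rw [Finset.image_insert, Finset.image_erase (ph_inj u)]

/-- the reflection of a north-east type is a south-west type -/
theorem sty_refl (hL : Link u v i j C R s) (hN : NTy u v i j C R s i' j') :
    STy (refl u) (refl v) (Fin.rev j) (Fin.rev i) (R.image (ph u)) (rf u (NWs u i j ∪ C) s)
      (Fin.rev j') (Fin.rev i') := by
  have hM := mt_of_link hL
  have hrf : ∀ a ∈ NWs u i j ∪ C, rf u (NWs u i j ∪ C) s (ph u (s a)) = ph u a := fun a ha =>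
    rf_apply hM.bij.injOn ha
  refine ⟨Fin.rev_le_rev.2 hN.hj, Fin.rev_lt_rev.2 hN.hi, sub_SWs_refl hN.hR, ?_, ?_, ?_⟩
  · rw [rk_refl, rk_refl, card_ph]
    exact hN.hg
  · intro w hw hwi c hc
    obtain ⟨x, rfl⟩ : ∃ x, ph u x = w := ⟨_, ph_ph' u w⟩
    obtain ⟨r, hr, rfl⟩ := Finset.mem_image.1 hc
    rw [mem_NWs_refl] at hw
    rw [refl_ph, Fin.rev_lt_rev] at hwi
    rw [ph_lt]
    exact hN.up x hw hwi r hr
  · intro c hc hmin a ha hca haj
    rw [image_union] at ha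
    obtain ⟨r, hr, rfl⟩ := Finset.mem_image.1 hc
    obtain ⟨b, hb, hbr⟩ := hM.surj (Finset.mem_union_right _ hr)
    obtain ⟨y, hy, rfl⟩ := Finset.mem_image.1 ha
    obtain ⟨x, hx, rfl⟩ := hM.surj hy
    subst hbr
    rw [hrf b hb, hrf x hx, refl_ph, refl_ph, Fin.rev_le_rev]
    refine hN.right b hb hr ?_ x hx (ph_le.1 hca) ?_
    · intro r' hr'
      exact ph_le.1 (hmin _ (Finset.mem_image_of_mem _ hr'))
    · rw [ph, Fin.rev_le_rev] at haj
      exact haj

/-- the statement on the first step, for all the data -/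
def SameFirst (n : ℕ) : Prop :=
  ∀ (u v : Equiv.Perm (Fin n)) (i j : Fin n) (C R : Finset (Fin n)) (s : Fin n → Fin n)
    (i' j' c₁ : Fin n), BruhatLE u v → C ⊆ SWs u i j → R ⊆ NEs u i j → C.card = R.card →
    rk u i j + C.card = rk v i j + 1 → Irr u v i j C R → Link u v i j C R s →
    STy u v i j C s i' j' → c₁ ∈ C → (∀ c ∈ C, c₁ ≤ c) → LowC u v i j C R c₁ →
    ∀ ρ ρ' : Fin n → Fin n, Link u v i j C R ρ → Link u v i j C R ρ' → ρ c₁ = s c₁ →
    ρ' c₁ = s c₁ → mv (NWs u i j ∪ C) ρ = mv (NWs u i j ∪ C) ρ'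

theorem same_last (hfirst : SameFirst n) (huv : BruhatLE u v) (hC : C ⊆ SWs u i j)
    (hR : R ⊆ NEs u i j) (hm : C.card = R.card) (hg : rk u i j + C.card = rk v i j + 1)
    (hI : Irr u v i j C R) (hL : Link u v i j C R s) (hN : NTy u v i j C R s i' j')
    {r₁ b : Fin n} (hr₁ : r₁ ∈ R) (hmax : ∀ r ∈ R, u r ≤ u r₁) (hb : b ∈ NWs u i j ∪ C)
    (hsb : s b = r₁) (hlow : LowR u v i j C R r₁) {ρ ρ' : Fin n → Fin n}
    (hρ : Link u v i j C R ρ) (hρ' : Link u v i j C R ρ') (h1 : ρ b = r₁) (h2 : ρ' b = r₁) :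
    mv (NWs u i j ∪ C) ρ = mv (NWs u i j ∪ C) ρ' := by
  have hrf : ∀ t, Link u v i j C R t → t b = r₁ →
      rf u (NWs u i j ∪ C) t (ph u r₁) = ph u b := by
    intro t ht htb
    rw [← htb]
    exact rf_apply ht.bij.injOn hb
  have h3 := hfirst (refl u) (refl v) (Fin.rev j) (Fin.rev i) (R.image (ph u)) (C.image (ph u))
    (rf u (NWs u i j ∪ C) s) (Fin.rev j') (Fin.rev i') (ph u r₁) (bruhat_refl huv)
    (sub_SWs_refl hR) (sub_NEs_refl hC) (by rw [card_ph, card_ph, hm])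
    (by rw [rk_refl, rk_refl, card_ph, ← hm]; exact hg) (irr_refl hI) (link_refl hL)
    (sty_refl hL hN) (Finset.mem_image_of_mem _ hr₁) ?_ ?_ _ _ (link_refl hρ) (link_refl hρ')
    ((hrf ρ hρ h1).trans (hrf s hL hsb).symm) ((hrf ρ' hρ' h2).trans (hrf s hL hsb).symm)
  · rw [image_union, mv_refl (mt_of_link hρ), mv_refl (mt_of_link hρ')] at h3
    exact h3
  · intro c hc
    obtain ⟨r, hr, rfl⟩ := Finset.mem_image.1 hc
    rw [ph_le]
    exact hmax r hr
  · intro y hy1 hy2 hy3 hI' σ σ' hσ hσ'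
    obtain ⟨x, rfl⟩ : ∃ x, ph u x = y := ⟨_, ph_ph' u y⟩
    rw [ph_lt] at hy1
    rw [refl_ph, refl_ph, Fin.rev_lt_rev] at hy2
    rw [refl_ph, Fin.rev_lt_rev] at hy3
    rw [image_insert_erase] at hI' hσ hσ' ⊢
    obtain ⟨t, ht, e1⟩ := link_unrefl hσ
    obtain ⟨t', ht', e2⟩ := link_unrefl hσ'
    rw [← e1, ← e2]
    exact hlow x hy3 hy2 hy1 (irr_unrefl hI') t t' ht ht'

end Pool.Agent.H83.KLU
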