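import Pool.Agent.H86.KL.UDefs

/-!
# Reflection in the antidiagonal (MP_a7460d_ag)

The vertex `a` (position `a`, value `u a`) becomes the vertex `ph u a` at the position `rev (u a)` with the value `rev a`.  The box `(i,j)` becomes
`(rev j, rev i)`, linkings from `C` to `R` become linkings from `R` to `C`.
-/

set_option autoImplicit false

open Pool.Agent.H30.KL Pool.Agent.H44.KL Pool.Agent.H86.KL

namespace Pool.Agent.H83.KLU

variable {n : ℕ}

/-- the reflection of a permutation -/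
def refl (u : Equiv.Perm (Fin n)) : Equiv.Perm (Fin n) := Fin.revPerm * u⁻¹ * Fin.revPerm

/-- the reflected vertex -/
def ph (u : Equiv.Perm (Fin n)) (a : Fin n) : Fin n := Fin.rev (u a)

variable {u v : Equiv.Perm (Fin n)} {i j : Fin n} {C R : Finset (Fin n)}

theorem refl_apply (u : Equiv.Perm (Fin n)) (x : Fin n) :
    refl u x = Fin.rev (u.symm (Fin.rev x)) := rfl

theorem refl_ph (u : Equiv.Perm (Fin n)) (a : Fin n) : refl u (ph u a) = Fin.rev a := by
  rw [refl_apply, ph, Fin.rev_rev, Equiv.symm_apply_apply]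

theorem refl_symm_apply (u : Equiv.Perm (Fin n)) (x : Fin n) :
    (refl u).symm x = Fin.rev (u (Fin.rev x)) := by
  rw [Equiv.symm_apply_eq, refl_apply, Fin.rev_rev, Equiv.symm_apply_apply, Fin.rev_rev]

theorem refl_refl (u : Equiv.Perm (Fin n)) : refl (refl u) = u := by
  ext x
  rw [refl_apply, refl_symm_apply, Fin.rev_rev, Fin.rev_rev]

theorem ph_ph (u : Equiv.Perm (Fin n)) (a : Fin n) : ph (refl u) (ph u a) = a := by
  rw [ph, refl_ph, Fin.rev_rev]

theorem ph_ph' (u : Equiv.Perm (Fin n)) (a : Fin n) : ph u (ph (refl u) a) = a := by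
  have := ph_ph (refl u) a
  rwa [refl_refl] at this

theorem ph_inj (u : Equiv.Perm (Fin n)) : Function.Injective (ph u) :=
  Function.LeftInverse.injective (ph_ph u)

theorem ph_lt {a b : Fin n} : ph u a < ph u b ↔ u b < u a := by
  rw [ph, ph, Fin.rev_lt_rev]

theorem ph_le {a b : Fin n} : ph u a ≤ ph u b ↔ u b ≤ u a := by
  rw [ph, ph, Fin.rev_le_rev]

theorem mem_image_ph {S : Finset (Fin n)} {x : Fin n} :
    x ∈ S.image (ph u) ↔ ph (refl u) x ∈ S := by
  rw [Finset.mem_image]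
  constructor
  · rintro ⟨a, ha, rfl⟩
    rwa [ph_ph]
  · intro h
    exact ⟨_, h, ph_ph' u x⟩

theorem image_image_ph (u : Equiv.Perm (Fin n)) (S : Finset (Fin n)) :
    (S.image (ph u)).image (ph (refl u)) = S := by
  rw [Finset.image_image]
  have : ph (refl u) ∘ ph u = id := by
    funext a
    exact ph_ph u a
  rw [this, Finset.image_id]

theorem rev_le_iff {a b : Fin n} : Fin.rev a ≤ b ↔ Fin.rev b ≤ a := by
  rw [← Fin.rev_le_rev, Fin.rev_rev]

theorem le_rev_iff {a b : Fin n} : a ≤ Fin.rev b ↔ b ≤ Fin.rev a := by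
  rw [← Fin.rev_le_rev, Fin.rev_rev]

theorem rev_lt_iff {a b : Fin n} : Fin.rev a < b ↔ Fin.rev b < a := by
  rw [← Fin.rev_lt_rev, Fin.rev_rev]

theorem lt_rev_iff {a b : Fin n} : a < Fin.rev b ↔ b < Fin.rev a := by
  rw [← Fin.rev_lt_rev, Fin.rev_rev]

theorem rk_refl (u : Equiv.Perm (Fin n)) (i j : Fin n) :
    rk (refl u) (Fin.rev j) (Fin.rev i) = rk u i j := by
  symm
  apply Finset.card_bij (fun a _ => ph u a)
  · intro a ha
    rw [Finset.mem_filter] at ha
    rw [Finset.mem_filter, refl_ph, ph, Fin.rev_le_rev, Fin.rev_le_rev]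
    exact ⟨Finset.mem_univ _, ha.2.2, ha.2.1⟩
  · intro a _ b _ h
    exact ph_inj u h
  · intro b hb
    rw [Finset.mem_filter] at hb
    refine ⟨ph (refl u) b, ?_, ph_ph' u b⟩
    rw [Finset.mem_filter]
    refine ⟨Finset.mem_univ _, ?_, ?_⟩
    · rw [ph, rev_le_iff]
      exact hb.2.2
    · have h1 := refl_ph (refl u) b
      rw [refl_refl] at h1
      rw [h1, le_rev_iff]
      exact hb.2.1

theorem rk_refl' (u : Equiv.Perm (Fin n)) (i j : Fin n) :
    rk (refl u) i j = rk u (Fin.rev j) (Fin.rev i) := by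
  have := rk_refl u (Fin.rev j) (Fin.rev i)
  rwa [Fin.rev_rev, Fin.rev_rev] at this

theorem bruhat_refl (h : BruhatLE u v) : BruhatLE (refl u) (refl v) := by
  intro a b
  rw [rk_refl', rk_refl']
  exact h _ _

theorem mem_NWs_refl {x : Fin n} :
    ph u x ∈ NWs (refl u) (Fin.rev j) (Fin.rev i) ↔ x ∈ NWs u i j := by
  rw [mem_NWs, mem_NWs, refl_ph, ph, Fin.rev_le_rev, Fin.rev_le_rev]
  exact and_comm

theorem mem_SWs_refl {x : Fin n} :
    ph u x ∈ SWs (refl u) (Fin.rev j) (Fin.rev i) ↔ x ∈ NEs u i j := by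
  rw [mem_SWs, mem_NEs, refl_ph, ph, Fin.rev_le_rev, Fin.rev_lt_rev]
  exact and_comm

theorem mem_NEs_refl {x : Fin n} :
    ph u x ∈ NEs (refl u) (Fin.rev j) (Fin.rev i) ↔ x ∈ SWs u i j := by
  rw [mem_NEs, mem_SWs, refl_ph, ph, Fin.rev_le_rev, Fin.rev_lt_rev]
  exact and_comm

theorem NWs_refl (u : Equiv.Perm (Fin n)) (i j : Fin n) :
    NWs (refl u) (Fin.rev j) (Fin.rev i) = (NWs u i j).image (ph u) := by
  ext x
  rw [mem_image_ph, ← mem_NWs_refl (u := u), ph_ph']

theorem SWs_refl (u : Equiv.Perm (Fin n)) (i j : Fin n) :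
    SWs (refl u) (Fin.rev j) (Fin.rev i) = (NEs u i j).image (ph u) := by
  ext x
  rw [mem_image_ph, ← mem_SWs_refl (u := u), ph_ph']

theorem NEs_refl (u : Equiv.Perm (Fin n)) (i j : Fin n) :
    NEs (refl u) (Fin.rev j) (Fin.rev i) = (SWs u i j).image (ph u) := by
  ext x
  rw [mem_image_ph, ← mem_NEs_refl (u := u), ph_ph']

theorem sub_SWs_refl (h : R ⊆ NEs u i j) :
    R.image (ph u) ⊆ SWs (refl u) (Fin.rev j) (Fin.rev i) := by
  rw [SWs_refl]
  exact Finset.image_subset_image h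

theorem sub_NEs_refl (h : C ⊆ SWs u i j) :
    C.image (ph u) ⊆ NEs (refl u) (Fin.rev j) (Fin.rev i) := by
  rw [NEs_refl]
  exact Finset.image_subset_image h

theorem card_ph (u : Equiv.Perm (Fin n)) (S : Finset (Fin n)) : (S.image (ph u)).card = S.card :=
  Finset.card_image_of_injective S (ph_inj u)

theorem irr_refl (h : Irr u v i j C R) :
    Irr (refl u) (refl v) (Fin.rev j) (Fin.rev i) (R.image (ph u)) (C.image (ph u)) := by
  obtain ⟨h1, h2⟩ := h
  constructor
  · intro a b ha hb hab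
    rw [rk_refl', rk_refl', card_ph]
    have e1 : ((R.image (ph u)).filter fun c => c ≤ b ∧ refl u c < a).card =
        (R.filter fun r => Fin.rev a < r ∧ Fin.rev b ≤ u r).card := by
      rw [Finset.filter_image, card_ph]
      congr 1
      ext r
      rw [Finset.mem_filter, Finset.mem_filter, refl_ph, ph, rev_le_iff, rev_lt_iff]
      tauto
    rw [e1]
    rcases h2 (Fin.rev b) (Fin.rev a) (le_rev_iff.1 hb) (le_rev_iff.1 ha) (by
      rcases hab with h3 | h3
      · right
        rintro rfl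
        exact h3 (Fin.rev_rev a).symm
      · left
        rintro rfl
        exact h3 (Fin.rev_rev b).symm) with h4 | ⟨h4, h5⟩
    · exact Or.inl h4
    · right
      refine ⟨?_, h5⟩
      have := sub_SWs_refl h4
      rwa [Fin.rev_rev, Fin.rev_rev] at this
  · intro a b ha hb hab
    rw [rk_refl', rk_refl', card_ph]
    have e1 : ((C.image (ph u)).filter fun r => b < r ∧ a ≤ refl u r).card =
        (C.filter fun c => c ≤ Fin.rev a ∧ u c < Fin.rev b).card := by
      rw [Finset.filter_image, card_ph]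
      congr 1
      ext c
      rw [Finset.mem_filter, Finset.mem_filter, refl_ph, ph, lt_rev_iff, le_rev_iff]
      tauto
    rw [e1]
    rcases h1 (Fin.rev b) (Fin.rev a) (rev_le_iff.1 hb) (rev_le_iff.1 ha) (by
      rcases hab with h3 | h3
      · right
        rintro rfl
        exact h3 (Fin.rev_rev a).symm
      · left
        rintro rfl
        exact h3 (Fin.rev_rev b).symm) with h4 | ⟨h4, h5⟩
    · exact Or.inl h4
    · right
      refine ⟨?_, h5⟩
      have := sub_NEs_refl h4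
      rwa [Fin.rev_rev, Fin.rev_rev] at this

theorem refl_mul_swap (u : Equiv.Perm (Fin n)) (a b : Fin n) :
    refl (u * Equiv.swap a b) = refl u * Equiv.swap (ph u b) (ph u a) := by
  apply Equiv.ext
  intro x
  obtain ⟨k, rfl⟩ : ∃ k, ph u k = x := ⟨_, ph_ph' u x⟩
  have h1 : Equiv.swap (ph u b) (ph u a) (ph u k) = ph u (Equiv.swap a b k) := by
    rw [Equiv.swap_comm, Equiv.swap_apply_def, Equiv.swap_apply_def]
    by_cases h2 : k = a
    · rw [h2, if_pos rfl, if_pos rfl]
    · rw [if_neg (fun h3 => h2 (ph_inj u h3)), if_neg h2]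
      by_cases h4 : k = b
      · rw [h4, if_pos rfl, if_pos rfl]
      · rw [if_neg (fun h3 => h4 (ph_inj u h3)), if_neg h4]
  rw [Equiv.Perm.mul_apply, h1, refl_ph, refl_apply]
  congr 1
  rw [ph, Fin.rev_rev, Equiv.symm_apply_eq, Equiv.Perm.mul_apply, Equiv.swap_apply_self]

open Classical in
/-- inverse of a map on a set -/
noncomputable def iv (A : Finset (Fin n)) (σ : Fin n → Fin n) (y : Fin n) : Fin n :=
  if h : ∃ a ∈ A, σ a = y then h.choose else y

theorem iv_apply {A : Finset (Fin n)} {σ : Fin n → Fin n} (hσ : Set.InjOn σ ↑A) {a : Fin n}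
    (ha : a ∈ A) : iv A σ (σ a) = a := by
  have h : ∃ b ∈ A, σ b = σ a := ⟨a, ha, rfl⟩
  rw [iv, dif_pos h]
  exact hσ h.choose_spec.1 ha h.choose_spec.2

/-- the reflected linking -/
noncomputable def rf (u : Equiv.Perm (Fin n)) (A : Finset (Fin n)) (σ : Fin n → Fin n) (x : Fin n) :
    Fin n := ph u (iv A σ (ph (refl u) x))

theorem rf_apply {A : Finset (Fin n)} {σ : Fin n → Fin n} (hσ : Set.InjOn σ ↑A) {a : Fin n}
    (ha : a ∈ A) : rf u A σ (ph u (σ a)) = ph u a := by
  rw [rf, ph_ph, iv_apply hσ ha]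

theorem image_union (u : Equiv.Perm (Fin n)) (i j : Fin n) (R : Finset (Fin n)) :
    NWs (refl u) (Fin.rev j) (Fin.rev i) ∪ R.image (ph u) = (NWs u i j ∪ R).image (ph u) := by
  rw [NWs_refl, Finset.image_union]

theorem mt_refl {A B : Finset (Fin n)} {σ : Fin n → Fin n} (h : Mt u A B σ) :
    Mt (refl u) (B.image (ph u)) (A.image (ph u)) (rf u A σ) := by
  have hrf : ∀ a ∈ A, rf u A σ (ph u (σ a)) = ph u a := fun a ha => rf_apply h.bij.injOn ha
  have hB : ∀ x ∈ B.image (ph u), ∃ a ∈ A, ph u (σ a) = x := by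
    intro x hx
    obtain ⟨b, hb, rfl⟩ := Finset.mem_image.1 hx
    obtain ⟨a, ha, rfl⟩ := h.surj hb
    exact ⟨a, ha, rfl⟩
  refine ⟨⟨?_, ?_, ?_⟩, ?_⟩
  · intro x hx
    obtain ⟨a, ha, rfl⟩ := hB x hx
    rw [hrf a ha]
    exact Finset.mem_coe.2 (Finset.mem_image_of_mem _ ha)
  · intro x hx y hy hxy
    obtain ⟨a, ha, rfl⟩ := hB x hx
    obtain ⟨b, hb, rfl⟩ := hB y hy
    rw [hrf a ha, hrf b hb] at hxy
    rw [ph_inj u hxy]
  · intro x hx
    obtain ⟨a, ha, rfl⟩ := Finset.mem_image.1 (Finset.mem_coe.1 hx)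
    exact ⟨_, Finset.mem_coe.2 (Finset.mem_image_of_mem _ (h.mem ha)), hrf a ha⟩
  · intro x hx hne
    obtain ⟨a, ha, rfl⟩ := hB x hx
    rw [hrf a ha] at hne ⊢
    obtain ⟨h1, h2⟩ := h.up a ha (fun h3 => hne (by rw [h3]))
    rw [ph_lt, refl_ph, refl_ph, Fin.rev_lt_rev]
    exact ⟨h2, h1⟩

theorem mv_refl {A B : Finset (Fin n)} {σ : Fin n → Fin n} (h : Mt u A B σ) :
    mv (B.image (ph u)) (rf u A σ) = mv A σ := by
  unfold mv
  symm
  apply Finset.card_bij (fun a _ => ph u (σ a))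
  · intro a ha
    rw [Finset.mem_filter] at ha
    rw [Finset.mem_filter, rf_apply h.bij.injOn ha.1]
    exact ⟨Finset.mem_image_of_mem _ (h.mem ha.1), fun h1 => ha.2 (ph_inj u h1).symm⟩
  · intro a ha b hb hab
    rw [Finset.mem_filter] at ha hb
    exact h.inj ha.1 hb.1 (ph_inj u hab)
  · intro x hx
    rw [Finset.mem_filter] at hx
    obtain ⟨b, hb, rfl⟩ := Finset.mem_image.1 hx.1
    obtain ⟨a, ha, rfl⟩ := h.surj hb
    refine ⟨a, ?_, rfl⟩
    rw [Finset.mem_filter]
    refine ⟨ha, fun h1 => hx.2 ?_⟩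
    rw [rf_apply h.bij.injOn ha, h1]

theorem link_refl {σ : Fin n → Fin n} (h : Link u v i j C R σ) :
    Link (refl u) (refl v) (Fin.rev j) (Fin.rev i) (R.image (ph u)) (C.image (ph u))
      (rf u (NWs u i j ∪ C) σ) := by
  have hM := mt_of_link h
  have hM' := mt_refl hM
  have hrf : ∀ a ∈ NWs u i j ∪ C, rf u (NWs u i j ∪ C) σ (ph u (σ a)) = ph u a := fun a ha =>
    rf_apply hM.bij.injOn ha
  refine ⟨?_, ?_, ?_⟩
  · rw [image_union, image_union]
    exact hM'.bij
  · rw [image_union]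
    intro x hx hne
    obtain ⟨h1, h2⟩ := hM'.up x hx hne
    refine ⟨h1, h2, ?_⟩
    obtain ⟨b, hb, rfl⟩ := Finset.mem_image.1 hx
    obtain ⟨a, ha, rfl⟩ := hM.surj hb
    rw [hrf a ha] at hne ⊢
    rcases (h.up a ha (fun h3 => hne (by rw [h3]))).2.2 with h3 | ⟨h3, h4⟩
    · left
      have h4 := bruhat_refl h3
      rwa [refl_mul_swap] at h4
    · right
      rw [h3, h4, Finset.image_singleton, Finset.image_singleton]
      exact ⟨rfl, rfl⟩
  · intro a b ha hb hab
    rw [image_union, rk_refl']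
    have h1 := h.rank (Fin.rev b) (Fin.rev a) (le_rev_iff.1 hb) (rev_le_iff.1 ha) (by
      rcases hab with h3 | h3
      · right
        rintro rfl
        exact h3 (Fin.rev_rev a).symm
      · left
        rintro rfl
        exact h3 (Fin.rev_rev b).symm)
    refine le_trans (le_of_eq ?_) h1
    symm
    apply Finset.card_bij (fun x _ => ph u (σ x))
    · intro x hx
      rw [Finset.mem_filter] at hx
      rw [Finset.mem_filter, hrf x hx.1, refl_ph, ph, rev_le_iff, le_rev_iff]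
      exact ⟨Finset.mem_image_of_mem _ (hM.mem hx.1), hx.2.2, hx.2.1⟩
    · intro x hx y hy hxy
      rw [Finset.mem_filter] at hx hy
      exact hM.inj hx.1 hy.1 (ph_inj u hxy)
    · intro y hy
      rw [Finset.mem_filter] at hy
      obtain ⟨w, hw, rfl⟩ := Finset.mem_image.1 hy.1
      obtain ⟨x, hx, rfl⟩ := hM.surj hw
      refine ⟨x, ?_, rfl⟩
      rw [hrf x hx, refl_ph, ph, rev_le_iff, le_rev_iff] at hy
      rw [Finset.mem_filter]
      exact ⟨hx, hy.2.2, hy.2.1⟩

/-- reflecting back -/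
theorem link_unrefl {τ : Fin n → Fin n}
    (h : Link (refl u) (refl v) (Fin.rev j) (Fin.rev i) (R.image (ph u)) (C.image (ph u)) τ) :
    ∃ σ, Link u v i j C R σ ∧
      mv (NWs u i j ∪ C) σ =
        mv (NWs (refl u) (Fin.rev j) (Fin.rev i) ∪ R.image (ph u)) τ := by
  have h1 := link_refl h
  rw [refl_refl, refl_refl, Fin.rev_rev, Fin.rev_rev, image_image_ph, image_image_ph] at h1
  refine ⟨_, h1, ?_⟩
  have h2 := mv_refl (mt_of_link h)
  rw [image_union, image_image_ph] at h2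
  rw [h2]

theorem irr_unrefl
    (h : Irr (refl u) (refl v) (Fin.rev j) (Fin.rev i) (R.image (ph u)) (C.image (ph u))) :
    Irr u v i j C R := by
  have h1 := irr_refl h
  rwa [refl_refl, refl_refl, Fin.rev_rev, Fin.rev_rev, image_image_ph, image_image_ph] at h1

end Pool.Agent.H83.KLU
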